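import Pool.Agent.Lib.MP_6ae9d2_nt.Basic

set_option autoImplicit false

open Pool.Agent.Lib.MP_6ae9d2_nt

namespace Pool.Agent.Results.MP_6ae9d2_nt.Description

/-- **Complete description of `Out(s_b, n)`.**  Let `m = core b n` be the largest divisor of `n`
coprime to `b`, and let `k ≥ 1` be any exponent with `b ^ k ≡ 1 (mod m)` (for instance
`k = φ(m)`).  Then `Out(s_b, n)` is the union, over `1 ≤ j ≤ (b ^ k - 1) / m`, of the
arithmetic progressions `{s_b(j m) + (b - 1) t : t ≥ 0}`. -/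
theorem result (b n : ℕ) (hb : 2 ≤ b) (hn : 1 ≤ n) :
    (Nat.Coprime (core b n) b ∧ 1 ≤ Nat.totient (core b n) ∧
      core b n ∣ b ^ Nat.totient (core b n) - 1) ∧
    ∀ k : ℕ, 1 ≤ k → core b n ∣ b ^ k - 1 →
      Out b n = {u | ∃ j t : ℕ, 1 ≤ j ∧ j ≤ (b ^ k - 1) / core b n ∧
        u = (Nat.digits b (j * core b n)).sum + (b - 1) * t} := by
  have hcop := core_coprime (b := b) hn
  have hpos := core_pos (b := b) hn
  refine ⟨⟨hcop, Nat.totient_pos.mpr hpos, ?_⟩, ?_⟩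
  · have h1 : b ^ Nat.totient (core b n) ≡ 1 [MOD (core b n)] := Nat.ModEq.pow_totient hcop.symm
    exact (Nat.modEq_iff_dvd' (Nat.one_le_pow _ _ (by omega))).mp h1.symm
  · intro k hk hmk
    ext u
    constructor
    · rintro ⟨N, hN, hnN, rfl⟩
      have hmN : core b n ∣ N := (Nat.div_dvd_of_dvd (Nat.gcd_dvd_left _ _)).trans hnN
      obtain ⟨j, t, h1, h2, h3⟩ := reduce hb hk hpos hmk N hN hmN
      exact ⟨j, t, h1, h2, h3⟩
    · rintro ⟨j, t, h1, h2, rfl⟩
      obtain ⟨N', g1, g2, g3⟩ := steps hb hk hmk (j * core b n)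
        (Nat.mul_pos (by omega) hpos) (Dvd.intro_left j rfl) t
      refine ⟨N' * b ^ n, Nat.mul_pos g1 (by positivity), ?_, ?_⟩
      · conv_lhs => rw [← core_mul (b := b) (n := n)]
        exact Nat.mul_dvd_mul g2 (Nat.gcd_dvd_right _ _)
      · rw [ds_mul_pow hb, g3]

end Pool.Agent.Results.MP_6ae9d2_nt.Description
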