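import Pool.Agent.Lib.MP_6ae9d2_nt.Three
import Pool.Agent.Lib.MP_6ae9d2_nt.Four

set_option autoImplicit false

open Pool.Agent.Lib.MP_6ae9d2_nt

namespace Pool.Agent.Results.MP_6ae9d2_nt.LowOrder

/-- **Closed formulas if `b` has order `1` or `r` modulo the prime factors of `n` prime to `b`, for an
`r` in `{2, 3, 4}`.** Let `b ≥ 2`, `n ≥ 1`, `d = gcd(b - 1, n)`.

`r = 2`: if every prime factor of `n` divides `b (b ^ 2 - 1)`, then `Out(s_b, n)` consists of the `u ≥ 1`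
with `d ∣ u` such that `2 d ∣ u` or `u ≥ gcd(b + 1, n)` or (`b` is odd, `n` is even and the power of two
in `n` is smaller than the power of two in `b ^ 2 - 1`).

`r = 3`: if every prime factor of `n` divides `b (b ^ 3 - 1)`, if `3 ∣ b` in case `3 ∣ n`, and if not both
`b ≡ 3 (mod 4)` and `4 ∣ n`, then `e = gcd(b ^ 2 + b + 1, n)` is of the form `x ^ 2 + x y + y ^ 2` with
`x, y ≥ 0` and `e ∣ x + (b + 1) y`, and for such `x`, `y` the set `Out(s_b, n)` consists of the `u ≥ 1` with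
`d ∣ u` such that `3 ∣ u`, or `u ≡ x + 2 y (mod 3)` and `u ≥ x + 2 y`, or `u ≡ 2 x + y (mod 3)` and
`u ≥ 2 x + y`.

`r = 4`: if every prime factor of `n` divides `b (b - 1) (b ^ 2 + 1)` and if `2 ∣ b` in case `2 ∣ n`, then
`e = gcd(b ^ 2 + 1, n)` is of the form `x ^ 2 + y ^ 2` with `x, y ≥ 0` and `e ∣ x + b y`, and for such `x`, `y`
the set `Out(s_b, n)` consists of the `u ≥ 1` with `d ∣ u` such that `2 ∣ u` or `u ≥ x + y`. -/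
theorem result (b n : ℕ) (hb : 2 ≤ b) (hn : 1 ≤ n) :
    ((∀ p : ℕ, p.Prime → p ∣ n → p ∣ b * (b ^ 2 - 1)) →
      Out b n = {u : ℕ | 1 ≤ u ∧ Nat.gcd (b - 1) n ∣ u ∧
        (2 * Nat.gcd (b - 1) n ∣ u ∨ Nat.gcd (b + 1) n ≤ u ∨
          (¬ 2 ∣ b ∧ 2 ∣ n ∧ padicValNat 2 n < padicValNat 2 (b ^ 2 - 1)))}) ∧
    ((∀ p : ℕ, p.Prime → p ∣ n → p ∣ b * (b ^ 3 - 1)) → (3 ∣ n → 3 ∣ b) → (b % 4 = 3 → ¬ 4 ∣ n) →
      (∃ x y : ℕ, x ^ 2 + x * y + y ^ 2 = Nat.gcd (b ^ 2 + b + 1) n ∧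
        Nat.gcd (b ^ 2 + b + 1) n ∣ x + (b + 1) * y) ∧
      ∀ x y : ℕ, x ^ 2 + x * y + y ^ 2 = Nat.gcd (b ^ 2 + b + 1) n →
        Nat.gcd (b ^ 2 + b + 1) n ∣ x + (b + 1) * y →
          Out b n = {u : ℕ | 1 ≤ u ∧ Nat.gcd (b - 1) n ∣ u ∧
            (3 ∣ u ∨ (u ≡ x + 2 * y [MOD 3] ∧ x + 2 * y ≤ u) ∨
              (u ≡ 2 * x + y [MOD 3] ∧ 2 * x + y ≤ u))}) ∧
    ((∀ p : ℕ, p.Prime → p ∣ n → p ∣ b * ((b - 1) * (b ^ 2 + 1))) → (2 ∣ n → 2 ∣ b) →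
      (∃ x y : ℕ, x ^ 2 + y ^ 2 = Nat.gcd (b ^ 2 + 1) n ∧ Nat.gcd (b ^ 2 + 1) n ∣ x + b * y) ∧
      ∀ x y : ℕ, x ^ 2 + y ^ 2 = Nat.gcd (b ^ 2 + 1) n → Nat.gcd (b ^ 2 + 1) n ∣ x + b * y →
        Out b n = {u : ℕ | 1 ≤ u ∧ Nat.gcd (b - 1) n ∣ u ∧ (2 ∣ u ∨ x + y ≤ u)}) := by
  refine ⟨fun hp => ?_, fun hp h3 h4 => Red.out_three hb hn hp h3 h4,
    fun hp h2 => Red.out_four hb hn hp h2⟩
  rw [Red.out_eq hb hn (r := 2) (by norm_num) hp (fun _ _ => dvd_rfl)]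
  ext u
  rw [Red.char_two hb (Nat.gcd_dvd_left _ _)]
  exact and_congr_right fun hu => Red.arith hb hn hu

end Pool.Agent.Results.MP_6ae9d2_nt.LowOrder
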