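import Pool.Agent.Lib.MP_6ae9d2_nt.Large

set_option autoImplicit false

open Pool.Agent.Lib.MP_6ae9d2_nt

namespace Pool.Agent.Results.MP_6ae9d2_nt.Reduction

/-- **Reduction to divisors of `b ^ r - 1`, with closed formulas for small cofactors.**

Let `b ≥ 2`, `n ≥ 1`, `r ≥ 1` be such that every prime factor of `n` divides `b (b ^ r - 1)`, and let
`r` be even if `b ≡ 3 (mod 4)` and `4 ∣ n`. Then `Out(s_b, n) = Out(s_b, G)` for
`G = gcd(b ^ r - 1, n)`. Let `b ^ r - 1 = G t`. If `b - 1 = c t`, this set consists of the numbers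
`c (r j + t k)` with `j ≥ 1`, `k ≥ 0`. If `t ≥ 2` divides `b ^ s + 1` for some `s ≥ 1` with `2 s ∣ r`,
it consists of the numbers `(b - 1) k` with `k ≥ r / 2`. -/
theorem result (b n r : ℕ) (hb : 2 ≤ b) (hn : 1 ≤ n) (hr : 1 ≤ r)
    (hp : ∀ p : ℕ, p.Prime → p ∣ n → p ∣ b * (b ^ r - 1)) (h4 : b % 4 = 3 → 4 ∣ n → 2 ∣ r) :
    Out b n = Out b (Nat.gcd (b ^ r - 1) n) ∧
      (∀ c t : ℕ, c * t = b - 1 → Nat.gcd (b ^ r - 1) n * t = b ^ r - 1 →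
        Out b n = {u : ℕ | ∃ j k : ℕ, 1 ≤ j ∧ u = c * (r * j + t * k)}) ∧
      (∀ s t : ℕ, 1 ≤ s → 2 * s ∣ r → 2 ≤ t → t ∣ b ^ s + 1 →
        Nat.gcd (b ^ r - 1) n * t = b ^ r - 1 →
          Out b n = {u : ℕ | ∃ k : ℕ, r ≤ 2 * k ∧ u = (b - 1) * k}) := by
  have h := Red.out_eq hb hn hr hp h4
  refine ⟨h, fun c t hct hG => ?_, fun s t hs hsr ht hts hG => ?_⟩
  · rw [h]; exact Red.out_rep hb hr hct hG
  · rw [h]; exact Red.out_neg hb hr hs hsr ht hts hG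

end Pool.Agent.Results.MP_6ae9d2_nt.Reduction
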