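import Pool.Agent.Lib.MP_6ae9d2_nt.Basic

set_option autoImplicit false

open Pool.Agent.Lib.MP_6ae9d2_nt

namespace Pool.Agent.Results.MP_6ae9d2_nt.Threshold

/-- Digit sums `x + y` with residue `x + b y` can be realised. -/
lemma realise {b m k : ℕ} (hb : 2 ≤ b) (hk : 1 ≤ k) (hmk : m ∣ b ^ k - 1) (x y : ℕ) :
    ∃ N : ℕ, (Nat.digits b N).sum = x + y ∧ N ≡ x + b * y [MOD m] := by
  have hone : ∀ B : ℕ, b ^ (k * B) ≡ 1 [MOD m] := by
    intro B
    have h1 : m ∣ b ^ (k * B) - 1 := by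
      refine hmk.trans ?_
      rw [pow_mul]
      simpa using Nat.sub_dvd_pow_sub_pow (b ^ k) 1 B
    exact ((Nat.modEq_iff_dvd' (Nat.one_le_pow _ _ (by omega))).mpr h1).symm
  have hlarge : ∀ N : ℕ, N < b ^ (k * N) := by
    intro N
    calc N < b ^ N := Nat.lt_pow_self (by omega)
      _ ≤ b ^ (k * N) := Nat.pow_le_pow_right (by omega) (Nat.le_mul_of_pos_left _ hk)
  induction x with
  | zero =>
    induction y with
    | zero => exact ⟨0, by simp, by simp; rfl⟩
    | succ y ih =>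
      obtain ⟨N, h1, h2⟩ := ih
      have hlt : N < b ^ (k * N + 1) :=
        lt_of_lt_of_le (hlarge N) (Nat.pow_le_pow_right (by omega) (by omega))
      refine ⟨1 * b ^ (k * N + 1) + N, ?_, ?_⟩
      · rw [ds_split hb 1 _ _ hlt, ds_one hb, h1]; ring
      · have h3 : b ^ (k * N + 1) ≡ b [MOD m] := by
          rw [pow_succ]
          simpa using (hone N).mul_right b
        calc 1 * b ^ (k * N + 1) + N = b ^ (k * N + 1) + N := by ring
          _ ≡ b + (0 + b * y) [MOD m] := h3.add h2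
          _ = 0 + b * (y + 1) := by ring
  | succ x ih =>
    obtain ⟨N, h1, h2⟩ := ih
    refine ⟨1 * b ^ (k * N) + N, ?_, ?_⟩
    · rw [ds_split hb 1 _ _ (hlarge N), ds_one hb, h1]; ring
    · calc 1 * b ^ (k * N) + N = b ^ (k * N) + N := by ring
        _ ≡ 1 + (x + b * y) [MOD m] := (hone N).add h2
        _ = x + 1 + b * y := by ring

lemma alt_bound (L : List ℕ) :
    |Nat.ofDigits (-1 : ℤ) L| ≤ (L.sum : ℤ) ∧ (2 : ℤ) ∣ Nat.ofDigits (-1 : ℤ) L - (L.sum : ℤ) := by
  induction L with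
  | nil => simp [Nat.ofDigits]
  | cons a L ih =>
    obtain ⟨h1, h2⟩ := ih
    have hcons : Nat.ofDigits (-1 : ℤ) (a :: L) = (a : ℤ) + (-1) * Nat.ofDigits (-1 : ℤ) L := by
      simp [Nat.ofDigits]
    rw [hcons, List.sum_cons, Nat.cast_add]
    rw [abs_le] at *
    constructor
    · constructor <;> linarith [h1.1, h1.2]
    · obtain ⟨c, hc⟩ := h2
      refine ⟨-c - L.sum, ?_⟩
      linarith

/-- **Optimal threshold.** Every multiple `u ≥ 1` of `d = gcd (b - 1) n` with `u ≥ m / d - 1`,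
`m` the largest divisor of `n` coprime to `b`, lies in `Out(s_b, n)`; and the bound `m / d - 1`
cannot be lowered: for all odd `d ≥ 1` and all odd `N > 2` with `N ≡ 2 (mod d)` there is a base
`b` with `gcd (b - 1, d N) = d`, `b` coprime to `d N`, for which the multiple `N - 2` of `d` is
not in `Out(s_b, d N)`. -/
theorem result :
    (∀ b n : ℕ, 2 ≤ b → 1 ≤ n → ∀ u : ℕ, 1 ≤ u → Nat.gcd (b - 1) n ∣ u →
      core b n / Nat.gcd (b - 1) n ≤ u + 1 → u ∈ Out b n) ∧
    (∀ d N : ℕ, Odd d → Odd N → 2 < N → N ≡ 2 [MOD d] →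
      ∃ b : ℕ, 2 ≤ b ∧ Nat.gcd (b - 1) (d * N) = d ∧ core b (d * N) = d * N ∧
        d ∣ N - 2 ∧ N - 2 ∉ Out b (d * N)) := by
  constructor
  · intro b n hb hn u hu hdu hle
    have hpos := core_pos (b := b) hn
    have hcop := core_coprime (b := b) hn
    set m := core b n with hm
    have hd : Nat.gcd (b - 1) n = Nat.gcd (b - 1) m := gcd_core hb
    rw [hd] at hdu hle
    set d := Nat.gcd (b - 1) m with hddef
    have hdpos : 0 < d := Nat.gcd_pos_of_pos_right _ hpos
    obtain ⟨g, hg⟩ : d ∣ b - 1 := Nat.gcd_dvd_left _ _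
    obtain ⟨M, hM⟩ : d ∣ m := Nat.gcd_dvd_right _ _
    obtain ⟨u', hu'⟩ := hdu
    have hMpos : 0 < M := by
      rcases Nat.eq_zero_or_pos M with h | h
      · rw [h] at hM; omega
      · exact h
    have hgM : Nat.Coprime g M := by
      have h1 : Nat.gcd (d * g) (d * M) = d := by rw [← hg, ← hM]
      rw [Nat.gcd_mul_left] at h1
      exact Nat.eq_of_mul_eq_mul_left hdpos (by rw [h1, mul_one])
    have hdiv : m / d = M := by rw [hM]; exact Nat.mul_div_cancel_left _ hdpos
    rw [hdiv] at hle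
    -- solve `u' + g w ≡ 0 (mod M)` with `0 ≤ w < M`
    obtain ⟨w, hw1, hw2⟩ : ∃ w : ℕ, w < M ∧ M ∣ u' + g * w := by
      have : NeZero M := ⟨by omega⟩
      refine ⟨((-(u' : ZMod M)) * (g : ZMod M)⁻¹).val, ZMod.val_lt _, ?_⟩
      rw [← ZMod.natCast_eq_zero_iff]
      push_cast
      rw [ZMod.natCast_val, ZMod.cast_id', id]
      have hinv : (g : ZMod M) * (g : ZMod M)⁻¹ = 1 := ZMod.coe_mul_inv_eq_one g hgM
      calc (u' : ZMod M) + g * (-(u' : ZMod M) * (g : ZMod M)⁻¹)
          = u' - u' * (g * (g : ZMod M)⁻¹) := by ring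
        _ = 0 := by rw [hinv]; ring
    have hwu : w ≤ u := by omega
    have hk : m ∣ b ^ Nat.totient m - 1 := by
      have h1 : b ^ Nat.totient m ≡ 1 [MOD m] := Nat.ModEq.pow_totient hcop.symm
      exact (Nat.modEq_iff_dvd' (Nat.one_le_pow _ _ (by omega))).mp h1.symm
    obtain ⟨N, hN1, hN2⟩ := realise hb (Nat.totient_pos.mpr hpos) hk (u - w) w
    have hsum : u - w + b * w = d * (u' + g * w) := by
      have h1 : b * w = (b - 1) * w + w := by
        conv_lhs => rw [show b = (b - 1) + 1 by omega]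
        ring
      rw [h1, hg]
      have h2 : d * (u' + g * w) = u + d * g * w := by rw [hu']; ring
      omega
    have hdvd : m ∣ u - w + b * w := by
      rw [hsum, hM]; exact Nat.mul_dvd_mul_left d hw2
    have hmN : m ∣ N := (Nat.ModEq.dvd_iff hN2 dvd_rfl).mpr hdvd
    have hNu : (Nat.digits b N).sum = u := by rw [hN1]; omega
    have hNpos : 0 < N := by
      rcases Nat.eq_zero_or_pos N with h | h
      · rw [h] at hNu; simp at hNu; omega
      · exact h
    exact mem_of_core hb hNpos hmN hNu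
  · intro d N hdodd hNodd hN2 hmod
    have hdpos : 0 < d := hdodd.pos
    have hdN : d ∣ N - 2 := (Nat.modEq_iff_dvd' (by omega)).mp hmod.symm
    have hcop : Nat.Coprime d N := by
      have h1 : Nat.gcd d N ∣ 2 := by
        have h2 : Nat.gcd d N ∣ N - 2 := (Nat.gcd_dvd_left d N).trans hdN
        have h3 : Nat.gcd d N ∣ N := Nat.gcd_dvd_right d N
        have h4 := Nat.dvd_sub h3 h2
        rwa [show N - (N - 2) = 2 by omega] at h4
      have h5 : Nat.Coprime (Nat.gcd d N) 2 :=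
        (Nat.coprime_two_right.mpr hNodd).coprime_dvd_left (Nat.gcd_dvd_right d N)
      have h6 : Nat.gcd (Nat.gcd d N) 2 = Nat.gcd d N := Nat.gcd_eq_left h1
      rw [Nat.Coprime, h6] at h5
      exact h5
    obtain ⟨b0, hb1, hb2⟩ := Nat.chineseRemainder hcop 1 (N - 1)
    -- shift to make it at least `2`
    set b := b0 + d * N * 2 with hbdef
    have hdN1 : 1 ≤ d * N := Nat.mul_pos hdpos (by omega)
    have hb : 2 ≤ b := by omega
    have hbd : b ≡ 1 [MOD d] := by
      have h1 : d * N * 2 ≡ 0 [MOD d] := (Nat.modEq_zero_iff_dvd).mpr ⟨N * 2, by ring⟩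
      simpa using hb1.add h1
    have hbN : b ≡ N - 1 [MOD N] := by
      have h1 : d * N * 2 ≡ 0 [MOD N] := (Nat.modEq_zero_iff_dvd).mpr ⟨d * 2, by ring⟩
      simpa using hb2.add h1
    have hdb : d ∣ b - 1 := (Nat.modEq_iff_dvd' (by omega)).mp hbd.symm
    have hNb : N ∣ b + 1 := by
      have h1 : b + 1 ≡ N - 1 + 1 [MOD N] := hbN.add_right 1
      rw [show N - 1 + 1 = N by omega] at h1
      exact (Nat.ModEq.dvd_iff h1 dvd_rfl).mpr dvd_rfl
    have hcopbN : Nat.Coprime (b - 1) N := by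
      have h1 : Nat.gcd (b - 1) N ∣ 2 := by
        have h2 : Nat.gcd (b - 1) N ∣ b + 1 := (Nat.gcd_dvd_right _ _).trans hNb
        have h3 : Nat.gcd (b - 1) N ∣ b - 1 := Nat.gcd_dvd_left _ _
        have h4 := Nat.dvd_sub h2 h3
        rwa [show b + 1 - (b - 1) = 2 by omega] at h4
      have h5 : Nat.Coprime (Nat.gcd (b - 1) N) 2 :=
        (Nat.coprime_two_right.mpr hNodd).coprime_dvd_left (Nat.gcd_dvd_right _ N)
      have h6 : Nat.gcd (Nat.gcd (b - 1) N) 2 = Nat.gcd (b - 1) N := Nat.gcd_eq_left h1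
      rw [Nat.Coprime, h6] at h5
      exact h5
    have hgcd : Nat.gcd (b - 1) (d * N) = d := by
      rw [Nat.Coprime.gcd_mul_right_cancel_right d hcopbN.symm]
      exact Nat.gcd_eq_right hdb
    have hcopb : Nat.Coprime (d * N) b := by
      apply Nat.Coprime.mul_left
      · have h1 : Nat.Coprime d (b - 1 + 1) := by
          obtain ⟨c, hc⟩ := hdb
          rw [hc, Nat.coprime_mul_left_add_right]
          exact Nat.coprime_one_right _
        rwa [show b - 1 + 1 = b by omega] at h1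
      · obtain ⟨c, hc⟩ := hNb
        have h1 : Nat.Coprime (b + 1) b := by
          rw [Nat.coprime_comm]
          exact (Nat.coprime_self_add_right).mpr (Nat.coprime_one_right _)
        exact h1.coprime_dvd_left ⟨c, hc⟩
    have hcore : core b (d * N) = d * N := by
      unfold core
      have h1 : Nat.gcd (d * N) (b ^ (d * N)) = 1 := Nat.Coprime.pow_right _ hcopb
      rw [h1, Nat.div_one]
    refine ⟨b, hb, hgcd, hcore, hdN, ?_⟩
    rintro ⟨X, hX, hdvd, hsum⟩
    have hNX : (N : ℤ) ∣ (X : ℤ) := by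
      exact_mod_cast (Dvd.intro_left d rfl : N ∣ d * N).trans hdvd
    have hbz : (b : ℤ) ≡ -1 [ZMOD (N : ℤ)] := by
      rw [Int.modEq_iff_dvd]
      have h1 : (N : ℤ) ∣ ((b + 1 : ℕ) : ℤ) := by exact_mod_cast hNb
      have h2 : (-1 : ℤ) - b = -((b + 1 : ℕ) : ℤ) := by push_cast; ring
      rw [h2]; exact (dvd_neg).mpr h1
    have h3 := Nat.zmodeq_ofDigits_digits N b (-1) hbz X
    have h4 : (N : ℤ) ∣ Nat.ofDigits (-1 : ℤ) (Nat.digits b X) := by
      exact (Int.ModEq.dvd_iff h3).mp hNX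
    obtain ⟨h5, h6⟩ := alt_bound (Nat.digits b X)
    rw [hsum] at h5 h6
    have h7 : Nat.ofDigits (-1 : ℤ) (Nat.digits b X) = 0 := by
      apply Int.eq_zero_of_abs_lt_dvd h4
      refine lt_of_le_of_lt h5 ?_
      have : N - 2 < N := by omega
      exact_mod_cast this
    rw [h7] at h6
    obtain ⟨c, hc⟩ := h6
    obtain ⟨e, he⟩ := hNodd
    omega

end Pool.Agent.Results.MP_6ae9d2_nt.Threshold
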